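import Pool.Agent.MVS.Stmts

/-!
# GBI: the integral of the curl over the slab vanishes, and the volume of the round slab

The functional `g ↦ ∫_{slab} g / |x|²` is invariant under rotations in the plane of two
coordinates; the derivative at the angle zero gives `∫_{slab} (x_i ∂_j g - x_j ∂_i g) / |x|² = 0`.
-/

set_option autoImplicit false

noncomputable section

open scoped ContDiff Topology RealInnerProductSpace
open Set MeasureTheory Filter

namespace Pool.Agent.MVS.H19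

open Pool.Agent.RF Pool.Agent.MVS

/-- the closed annulus -/
def ann : Set E3 := {x | 1 ≤ ‖x‖ ∧ ‖x‖ ≤ Real.exp 1}

theorem ann_compact : IsCompact ann := by
  have h : ann = Metric.closedBall (0 : E3) (Real.exp 1) \ Metric.ball (0 : E3) 1 := by
    ext x
    simp only [ann, mem_ofPred_eq, Set.mem_sdiff, Metric.mem_closedBall, Metric.mem_ball, dist_zero_right,
      not_lt]
    exact and_comm
  rw [h]
  exact (isCompact_closedBall _ _).diff Metric.isOpen_ball

theorem slab_sub : slab (Fin 3) ⊆ ann := fun _ hx => ⟨hx.1.le, hx.2.le⟩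

theorem ann_ne {x : E3} (hx : x ∈ ann) : x ≠ 0 := by
  rintro rfl
  have := hx.1
  rw [norm_zero] at this
  linarith

theorem slab_meas : MeasurableSet (slab (Fin 3)) := by
  have : slab (Fin 3) = (fun x : E3 => ‖x‖) ⁻¹' Ioo 1 (Real.exp 1) := rfl
  rw [this]
  exact measurable_norm measurableSet_Ioo

theorem int_of_cont {f : E3 → ℝ} (hf : ContinuousOn f ann) : IntegrableOn f (slab (Fin 3)) :=
  (hf.integrableOn_compact ann_compact).mono_set slab_sub

/-- rotation in the plane of `i, j` -/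
def rt (i j : Fin 3) (t : ℝ) (x : E3) : E3 :=
  x + (Real.cos t - 1) • (x i • eb i + x j • eb j) + Real.sin t • (x i • eb j - x j • eb i)

/-- its derivative -/
def dr (i j : Fin 3) (t : ℝ) (x : E3) : E3 :=
  (-Real.sin t) • (x i • eb i + x j • eb j) + Real.cos t • (x i • eb j - x j • eb i)

theorem eb_apply (i k : Fin 3) : (eb i : E3) k = if k = i then (1 : ℝ) else 0 := by
  unfold eb
  exact PiLp.single_apply 2 ℝ i 1 k

theorem rt_apply (i j k : Fin 3) (t : ℝ) (x : E3) : (rt i j t x) k =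
    x k + (Real.cos t - 1) * (x i * (if k = i then 1 else 0) + x j * (if k = j then 1 else 0)) +
      Real.sin t * (x i * (if k = j then 1 else 0) - x j * (if k = i then 1 else 0)) := by
  unfold rt
  rw [PiLp.add_apply, PiLp.add_apply, PiLp.smul_apply, PiLp.smul_apply, PiLp.add_apply,
    PiLp.sub_apply, PiLp.smul_apply, PiLp.smul_apply, PiLp.smul_apply, PiLp.smul_apply,
    eb_apply, eb_apply]
  rfl

theorem sq_sum (a b : Fin 3 → ℝ) (i j : Fin 3) (hij : i ≠ j) (c s : ℝ) (hs : s ^ 2 + c ^ 2 = 1)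
    (h : ∀ k, b k = a k + (c - 1) * (a i * (if k = i then 1 else 0) +
      a j * (if k = j then 1 else 0)) + s * (a i * (if k = j then 1 else 0) -
      a j * (if k = i then 1 else 0))) : ∑ k, b k ^ 2 = ∑ k, a k ^ 2 := by
  rw [Fin.sum_univ_three, Fin.sum_univ_three, h 0, h 1, h 2]
  have hc : (i = 0 ∧ j = 1) ∨ (i = 0 ∧ j = 2) ∨ (i = 1 ∧ j = 0) ∨ (i = 1 ∧ j = 2) ∨
      (i = 2 ∧ j = 0) ∨ (i = 2 ∧ j = 1) := by
    clear h hs
    revert i j
    decide
  have d01 : ¬ ((0 : Fin 3) = 1) := by decide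
  have d02 : ¬ ((0 : Fin 3) = 2) := by decide
  have d10 : ¬ ((1 : Fin 3) = 0) := by decide
  have d12 : ¬ ((1 : Fin 3) = 2) := by decide
  have d20 : ¬ ((2 : Fin 3) = 0) := by decide
  have d21 : ¬ ((2 : Fin 3) = 1) := by decide
  rcases hc with ⟨rfl, rfl⟩ | ⟨rfl, rfl⟩ | ⟨rfl, rfl⟩ | ⟨rfl, rfl⟩ | ⟨rfl, rfl⟩ | ⟨rfl, rfl⟩
  · rw [if_pos rfl, if_neg d01, if_neg d10, if_pos rfl, if_neg d20, if_neg d21]
    linear_combination (a 0 ^ 2 + a 1 ^ 2) * hs
  · rw [if_pos rfl, if_neg d02, if_neg d10, if_neg d12, if_neg d20, if_pos rfl]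
    linear_combination (a 0 ^ 2 + a 2 ^ 2) * hs
  · rw [if_neg d01, if_pos rfl, if_pos rfl, if_neg d10, if_neg d21, if_neg d20]
    linear_combination (a 0 ^ 2 + a 1 ^ 2) * hs
  · rw [if_neg d01, if_neg d02, if_pos rfl, if_neg d12, if_neg d21, if_pos rfl]
    linear_combination (a 1 ^ 2 + a 2 ^ 2) * hs
  · rw [if_neg d02, if_pos rfl, if_neg d12, if_neg d10, if_pos rfl, if_neg d20]
    linear_combination (a 0 ^ 2 + a 2 ^ 2) * hs
  · rw [if_neg d02, if_neg d01, if_neg d12, if_pos rfl, if_pos rfl, if_neg d21]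
    linear_combination (a 1 ^ 2 + a 2 ^ 2) * hs

theorem rt_norm {i j : Fin 3} (hij : i ≠ j) (t : ℝ) (x : E3) : ‖rt i j t x‖ = ‖x‖ := by
  have h : ‖rt i j t x‖ ^ 2 = ‖x‖ ^ 2 := by
    rw [EuclideanSpace.real_norm_sq_eq, EuclideanSpace.real_norm_sq_eq]
    exact sq_sum (fun k => x k) (fun k => (rt i j t x) k) i j hij _ _
      (Real.sin_sq_add_cos_sq t) fun k => rt_apply i j k t x
  rwa [sq_eq_sq₀ (norm_nonneg _) (norm_nonneg _)] at h

/-- the rotation as a linear isometry -/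
def li {i j : Fin 3} (hij : i ≠ j) (t : ℝ) : E3 →ₗᵢ[ℝ] E3 where
  toFun := rt i j t
  map_add' x y := by
    ext k
    simp only [rt, PiLp.add_apply, PiLp.smul_apply, PiLp.sub_apply, smul_eq_mul]
    ring
  map_smul' c x := by
    ext k
    simp only [rt, PiLp.add_apply, PiLp.smul_apply, PiLp.sub_apply, smul_eq_mul, RingHom.id_apply]
    ring
  norm_map' := rt_norm hij t

theorem int_rt {i j : Fin 3} (hij : i ≠ j) (t : ℝ) (h : E3 → ℝ) :
    ∫ x in slab (Fin 3), h (rt i j t x) = ∫ x in slab (Fin 3), h x := by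
  let L : E3 ≃ₗᵢ[ℝ] E3 := (li hij t).toLinearIsometryEquiv rfl
  have hL : ∀ x, L x = rt i j t x := fun _ => rfl
  have h1 := L.measurePreserving.setIntegral_preimage_emb
    L.toHomeomorph.measurableEmbedding h (slab (Fin 3))
  have h2 : L ⁻¹' slab (Fin 3) = slab (Fin 3) := by
    ext x
    simp only [slab, mem_preimage, mem_ofPred_eq, hL, rt_norm hij]
  rw [h2] at h1
  exact h1

theorem rt_cont (i j : Fin 3) : Continuous fun p : ℝ × E3 => rt i j p.1 p.2 := by
  unfold rt
  fun_prop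

theorem dr_cont (i j : Fin 3) : Continuous fun p : ℝ × E3 => dr i j p.1 p.2 := by
  unfold dr
  fun_prop

theorem rt_deriv (i j : Fin 3) (t : ℝ) (x : E3) :
    HasDerivAt (fun s => rt i j s x) (dr i j t x) t := by
  unfold rt dr
  have h1 := ((Real.hasDerivAt_cos t).sub_const 1).smul_const (x i • eb i + x j • eb j)
  have h2 := (Real.hasDerivAt_sin t).smul_const (x i • eb j - x j • eb i)
  have h3 := (h1.const_add x).add h2
  exact h3

theorem rot_zero {g : E3 → ℝ} {g' : E3 → E3 →L[ℝ] ℝ}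
    (hg : ∀ x, x ≠ 0 → HasFDerivAt g (g' x) x) (hc : ContinuousOn g' (Om (Fin 3)))
    {i j : Fin 3} (hij : i ≠ j) :
    IntegrableOn (fun x => (x i * g' x (eb j) - x j * g' x (eb i)) / ‖x‖ ^ 2) (slab (Fin 3)) ∧
    ∫ x in slab (Fin 3), (x i * g' x (eb j) - x j * g' x (eb i)) / ‖x‖ ^ 2 = 0 := by
  have hgc : ContinuousOn g (Om (Fin 3)) := fun x hx => (hg x hx).continuousAt.continuousWithinAt
  have hrt : ∀ t, ∀ x ∈ ann, rt i j t x ∈ ann := by
    intro t x hx
    refine ⟨?_, ?_⟩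
    · rw [rt_norm hij]; exact hx.1
    · rw [rt_norm hij]; exact hx.2
  have hannOm : ann ⊆ Om (Fin 3) := fun x hx => ann_ne hx
  have hn0 : ∀ x ∈ ann, ‖x‖ ^ 2 ≠ 0 := fun x hx => pow_ne_zero 2 (norm_ne_zero_iff.mpr (ann_ne hx))
  have hFc : ∀ t, ContinuousOn (fun x => g (rt i j t x) / ‖x‖ ^ 2) ann := by
    intro t
    refine ContinuousOn.div ?_ (by fun_prop) hn0
    refine hgc.comp ?_ fun x hx => hannOm (hrt t x hx)
    exact ((rt_cont i j).comp (Continuous.prodMk_right t)).continuousOn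
  have hF'c : ContinuousOn (fun p : ℝ × E3 => g' (rt i j p.1 p.2) (dr i j p.1 p.2) / ‖p.2‖ ^ 2)
      (Icc (-1) 1 ×ˢ ann) := by
    refine ContinuousOn.div ?_ (by fun_prop) fun p hp => hn0 p.2 hp.2
    refine ContinuousOn.clm_apply ?_ (dr_cont i j).continuousOn
    exact hc.comp (rt_cont i j).continuousOn fun p hp => hannOm (hrt p.1 p.2 hp.2)
  obtain ⟨C, hC⟩ := (isCompact_Icc.prod ann_compact).exists_bound_of_continuousOn hF'c
  have hfin : volume (slab (Fin 3)) < ⊤ :=
    (measure_mono slab_sub).trans_lt ann_compact.measure_lt_top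
  have key := hasDerivAt_integral_of_dominated_loc_of_deriv_le (μ := volume.restrict (slab (Fin 3)))
    (F := fun t x => g (rt i j t x) / ‖x‖ ^ 2)
    (F' := fun t x => g' (rt i j t x) (dr i j t x) / ‖x‖ ^ 2) (x₀ := (0 : ℝ)) (s := Ioo (-1) 1)
    (bound := fun _ => C) (Ioo_mem_nhds (by norm_num) (by norm_num))
    (Eventually.of_forall fun t => ((hFc t).mono slab_sub).aestronglyMeasurable slab_meas)
    (int_of_cont (hFc 0)) ?_ ?_ ?_ ?_
  · obtain ⟨k1, k2⟩ := key
    have e0 : (fun x => g' (rt i j 0 x) (dr i j 0 x) / ‖x‖ ^ 2) =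
        fun x => (x i * g' x (eb j) - x j * g' x (eb i)) / ‖x‖ ^ 2 := by
      funext x
      have a1 : rt i j 0 x = x := by simp [rt]
      have a2 : dr i j 0 x = x i • eb j - x j • eb i := by simp [dr]
      rw [a1, a2, map_sub, map_smul, map_smul, smul_eq_mul, smul_eq_mul]
    have e1 : (fun t => ∫ x in slab (Fin 3), g (rt i j t x) / ‖x‖ ^ 2) =
        fun _ => ∫ x in slab (Fin 3), g x / ‖x‖ ^ 2 := by
      funext t
      have := int_rt hij t (fun x => g x / ‖x‖ ^ 2)
      simp only [rt_norm hij] at this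
      exact this
    rw [e1] at k2
    have k3 := k2.unique (hasDerivAt_const (0 : ℝ) _)
    rw [e0] at k1
    simp only [show ∀ x, g' (rt i j 0 x) (dr i j 0 x) / ‖x‖ ^ 2 =
      (x i * g' x (eb j) - x j * g' x (eb i)) / ‖x‖ ^ 2 from fun x => congrFun e0 x] at k3
    exact ⟨k1, k3⟩
  · refine ContinuousOn.aestronglyMeasurable ?_ slab_meas
    have hmap : ∀ x ∈ slab (Fin 3), ((0 : ℝ), x) ∈ Icc (-1 : ℝ) 1 ×ˢ ann := fun x hx =>
      ⟨⟨by norm_num, by norm_num⟩, slab_sub hx⟩
    have hc0 : Continuous fun x : E3 => ((0 : ℝ), x) := by fun_prop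
    have hcomp := ContinuousOn.comp (f := fun x : E3 => ((0 : ℝ), x))
      (t := Icc (-1 : ℝ) 1 ×ˢ ann) hF'c hc0.continuousOn hmap
    exact hcomp
  · refine (ae_restrict_iff' slab_meas).mpr (Eventually.of_forall fun x hx t ht => ?_)
    exact hC (t, x) ⟨⟨ht.1.le, ht.2.le⟩, slab_sub hx⟩
  · exact integrable_const_iff.mpr (Or.inr ⟨by simpa using hfin⟩)
  · refine (ae_restrict_iff' slab_meas).mpr (Eventually.of_forall fun x hx t _ => ?_)
    have h0 : rt i j t x ≠ 0 := ann_ne (hrt t x (slab_sub hx))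
    exact ((hg _ h0).comp_hasDerivAt t (rt_deriv i j t x)).div_const _

theorem gbi : GbiStatement := by
  refine ⟨fun α hα _ => ?_, ?_, ?_⟩
  · have hOm : IsOpen (Om (Fin 3)) := isOpen_ne
    have hd : ∀ x, x ≠ 0 → HasFDerivAt α (fderiv ℝ α x) x := fun x hx =>
      ((hα.differentiableOn (by norm_num)).differentiableAt (hOm.mem_nhds hx)).hasFDerivAt
    have hcd : ContinuousOn (fderiv ℝ α) (Om (Fin 3)) :=
      hα.continuousOn_fderiv_of_isOpen hOm (by norm_num)
    have hk : ∀ k : Fin 3, (∀ x, x ≠ 0 → HasFDerivAt (fun y => (α y) k)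
        ((EuclideanSpace.proj k : E3 →L[ℝ] ℝ).comp (fderiv ℝ α x)) x) := by
      intro k x hx
      exact ((EuclideanSpace.proj k : E3 →L[ℝ] ℝ).hasFDerivAt).comp x (hd x hx)
    have hkc : ∀ k : Fin 3, ContinuousOn
        (fun x => (EuclideanSpace.proj k : E3 →L[ℝ] ℝ).comp (fderiv ℝ α x)) (Om (Fin 3)) := by
      intro k
      exact continuousOn_const.clm_comp hcd
    have h1 := rot_zero (hk 2) (hkc 2) (i := 0) (j := 1) (by decide)
    have h2 := rot_zero (hk 0) (hkc 0) (i := 1) (j := 2) (by decide)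
    have h3 := rot_zero (hk 1) (hkc 1) (i := 2) (j := 0) (by decide)
    have e : (fun x => xcurl α x / ‖x‖ ^ 2) = fun x =>
        ((x 0 * ((EuclideanSpace.proj 2 : E3 →L[ℝ] ℝ).comp (fderiv ℝ α x)) (eb 1) -
          x 1 * ((EuclideanSpace.proj 2 : E3 →L[ℝ] ℝ).comp (fderiv ℝ α x)) (eb 0)) / ‖x‖ ^ 2 +
        (x 1 * ((EuclideanSpace.proj 0 : E3 →L[ℝ] ℝ).comp (fderiv ℝ α x)) (eb 2) -
          x 2 * ((EuclideanSpace.proj 0 : E3 →L[ℝ] ℝ).comp (fderiv ℝ α x)) (eb 1)) / ‖x‖ ^ 2) +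
        (x 2 * ((EuclideanSpace.proj 1 : E3 →L[ℝ] ℝ).comp (fderiv ℝ α x)) (eb 0) -
          x 0 * ((EuclideanSpace.proj 1 : E3 →L[ℝ] ℝ).comp (fderiv ℝ α x)) (eb 2)) / ‖x‖ ^ 2 := by
      funext x
      have p : ∀ (k : Fin 3) (v : E3), ((EuclideanSpace.proj k : E3 →L[ℝ] ℝ).comp
          (fderiv ℝ α x)) v = ((fderiv ℝ α x) v) k := fun _ _ => rfl
      rw [p, p, p, p, p, p]
      unfold xcurl pdf
      ring
    rw [e]
    refine ⟨(h1.1.add h2.1).add h3.1, ?_⟩
    have i12 := integral_add h1.1 h2.1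
    have i123 := integral_add (h1.1.add h2.1) h3.1
    rw [h1.2, h2.2] at i12
    rw [h3.2] at i123
    refine i123.trans ?_
    rw [add_zero]
    exact i12.trans (add_zero 0)
  · refine int_of_cont ?_
    refine ContinuousOn.pow (ContinuousOn.inv₀ continuous_norm.continuousOn ?_) 3
    exact fun x hx => norm_ne_zero_iff.mpr (ann_ne hx)
  · have e1 : ∫ x in slab (Fin 3), ‖(x : E3)‖⁻¹ ^ 3 =
        ∫ x : E3, (Ioo 1 (Real.exp 1)).indicator (fun r => r⁻¹ ^ 3) ‖x‖ := by
      rw [← integral_indicator slab_meas]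
      refine integral_congr_ae (Eventually.of_forall fun x => ?_)
      beta_reduce
      by_cases hx : x ∈ slab (Fin 3)
      · rw [indicator_of_mem hx, indicator_of_mem (show ‖x‖ ∈ Ioo 1 (Real.exp 1) from hx)]
      · rw [indicator_of_notMem hx,
          indicator_of_notMem (show ¬ (‖x‖ ∈ Ioo 1 (Real.exp 1)) from hx)]
    rw [e1, integral_fun_norm_addHaar]
    have e2 : (volume : Measure E3).real (Metric.ball 0 1) = 4 * Real.pi / 3 := by
      unfold Measure.real
      rw [EuclideanSpace.volume_ball_fin_three]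
      simp only [ENNReal.ofReal_one, one_pow, one_mul]
      rw [ENNReal.toReal_ofReal (by positivity)]
      ring
    have e3 : ∫ y in Ioi (0 : ℝ), y ^ (Module.finrank ℝ E3 - 1) •
        (Ioo 1 (Real.exp 1)).indicator (fun r => r⁻¹ ^ 3) y = 1 := by
      have hf : Module.finrank ℝ E3 = 3 := by simp
      rw [hf]
      have a1 : ∀ y : ℝ, y ^ (3 - 1) • (Ioo 1 (Real.exp 1)).indicator (fun r => r⁻¹ ^ 3) y =
          (Ioo 1 (Real.exp 1)).indicator (fun r => r⁻¹) y := by
        intro y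
        by_cases hy : y ∈ Ioo 1 (Real.exp 1)
        · rw [indicator_of_mem hy, indicator_of_mem hy]
          have : y ≠ 0 := by have := hy.1; positivity
          simp only [smul_eq_mul]
          field_simp
        · rw [indicator_of_notMem hy, indicator_of_notMem hy, smul_zero]
      simp only [a1]
      rw [setIntegral_indicator measurableSet_Ioo]
      have a2 : Ioi (0 : ℝ) ∩ Ioo 1 (Real.exp 1) = Ioo 1 (Real.exp 1) := by
        refine inter_eq_right.mpr fun y hy => ?_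
        exact lt_trans one_pos hy.1
      have he : (1 : ℝ) ≤ Real.exp 1 := Real.one_le_exp (by norm_num)
      rw [a2, ← integral_Ioc_eq_integral_Ioo, ← intervalIntegral.integral_of_le he,
        integral_inv_of_pos one_pos (Real.exp_pos 1)]
      simp
    rw [e3, e2]
    have hf : Module.finrank ℝ E3 = 3 := by simp
    rw [hf]
    simp only [smul_eq_mul, nsmul_eq_mul]
    push_cast
    ring

end Pool.Agent.MVS.H19
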